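import Mathlib
import Pool.Agent.Y749.VV.Defs
import Pool.Agent.Y749.VV.Vec
import Pool.Agent.Y749.VV.Low2
import Pool.Agent.Y749.VV.DegR

/-! The best constant in `‖f‖_q ≤ K ‖f‖_p` for functions of degree at most `d` on the hypercube, with
values in an arbitrary normed space, up to a factor `c (d+1)^2`, for every degree `d`. -/

namespace Pool.Agent.Results.MP_961199_an.DegreeByDegree

open Pool.Agent.Helper228.HC (Cube)
open Pool.Agent.Y749.VV (lpE degreeE)

/-- `C` is admissible for the normed space `E` and the exponents `p, q` if `C > 0` and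
`‖f‖_q ≤ C^{deg f} ‖f‖_p` for every `n ≥ 1` and every function `f : {-1,1}^n → E`. -/
def Admissible (E : Type) [NormedAddCommGroup E] [NormedSpace ℝ E] (p q C : ℝ) : Prop :=
  0 < C ∧ ∀ n : ℕ, 1 ≤ n → ∀ f : Cube n → E, lpE q f ≤ C ^ degreeE f * lpE p f

/-- `K` is admissible in degree at most `d` if `K > 0` and `‖f‖_q ≤ K ‖f‖_p` for every `n ≥ 1` and
every function `f : {-1,1}^n → E` of degree at most `d`. -/
def AdmissibleAt (E : Type) [NormedAddCommGroup E] [NormedSpace ℝ E] (p q : ℝ) (d : ℕ) (K : ℝ) : Prop :=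
  0 < K ∧ ∀ n : ℕ, 1 ≤ n → ∀ f : Cube n → E, degreeE f ≤ d → lpE q f ≤ K * lpE p f

/-- Let `1 ≤ p < q` be real and `r = √(2q/p - 1)`. (1) For every nonzero real normed space `E` the
smallest admissible constant is `r`. (2) There is `c > 0`, depending on `p` and `q` only, such that for
every nonzero real normed space `E` and every single degree `d` the best constant `K_d` for functions
of degree at most `d` exists and satisfies `r^d / (c (d+1)^2) ≤ K_d ≤ r^d`. -/
theorem result (p q : ℝ) (hp : 1 ≤ p) (hpq : p < q) :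
    (∀ (E : Type) [NormedAddCommGroup E] [NormedSpace ℝ E] [Nontrivial E],
      IsLeast {C : ℝ | Admissible E p q C} (Real.sqrt (2 * q / p - 1))) ∧
    ∃ c : ℝ, 0 < c ∧ ∀ (E : Type) [NormedAddCommGroup E] [NormedSpace ℝ E] [Nontrivial E] (d : ℕ),
      ∃ K : ℝ, IsLeast {K : ℝ | AdmissibleAt E p q d K} K ∧
        Real.sqrt (2 * q / p - 1) ^ d / (c * ((d : ℝ) + 1) ^ 2) ≤ K ∧
        K ≤ Real.sqrt (2 * q / p - 1) ^ d := by
  have hp0 : 0 < p := by linarith
  have hq0 : 0 < q := by linarith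
  have hr1 : 1 < 2 * q / p - 1 := by
    have h1 : 1 < q / p := by rw [lt_div_iff₀ hp0]; linarith
    have e : 2 * q / p = 2 * (q / p) := by ring
    rw [e]; linarith
  have hr : 0 < Real.sqrt (2 * q / p - 1) := Real.sqrt_pos.2 (by linarith)
  obtain ⟨c, hc, hlow⟩ := Pool.Agent.Y749.VV.lower_degR hp hpq
  have hlowE : ∀ (E : Type) [NormedAddCommGroup E] [NormedSpace ℝ E] [Nontrivial E] (d : ℕ) (K : ℝ),
      AdmissibleAt E p q d K → Real.sqrt (2 * q / p - 1) ^ d / (c * ((d : ℝ) + 1) ^ 2) ≤ K := by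
    intro E _ _ _ d K hK
    obtain ⟨v, hv⟩ := exists_ne (0 : E)
    exact hlow d K hK.1 (Pool.Agent.Y749.VV.admDeg_of_vec hv hp hpq hK.2)
  refine ⟨?_, c, hc, ?_⟩
  · intro E _ _ _
    refine ⟨⟨hr, fun n _ f => Pool.Agent.Y749.VV.upper_degR hp hpq _ f le_rfl⟩, ?_⟩
    rintro C ⟨hC0, hC⟩
    obtain ⟨v, hv⟩ := exists_ne (0 : E)
    have hC1 : 1 ≤ C := Pool.Agent.Y749.VV.one_le_of hC0
      (Pool.Agent.Y749.VV.real_of_vec hp0 hq0 hv hC)
    refine Pool.Agent.Y749.VV.le_of_pow_le (A := 1) (B := c) hr.le hC0 one_pos fun d => ?_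
    have h1 := hlowE E d (C ^ d) ⟨by positivity, fun n hn f hf => by
      refine (hC n hn f).trans ?_
      exact mul_le_mul_of_nonneg_right (pow_le_pow_right₀ hC1 hf)
        (Real.rpow_nonneg (Pool.Agent.Helper228.HC.mean_nonneg fun _ =>
          Real.rpow_nonneg (norm_nonneg _) _) _)⟩
    have hd0 : (0 : ℝ) ≤ d := by positivity
    rw [div_le_iff₀ (by positivity)] at h1
    have h2 : ((d : ℝ) + 1) ^ 2 ≤ (2 * (d : ℝ) + 1) ^ 5 := by
      calc ((d : ℝ) + 1) ^ 2 ≤ (2 * (d : ℝ) + 1) ^ 2 := pow_le_pow_left₀ (by positivity) (by linarith) 2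
        _ ≤ _ := pow_le_pow_right₀ (by linarith) (by norm_num)
    calc 1 * Real.sqrt (2 * q / p - 1) ^ d ≤ C ^ d * (c * ((d : ℝ) + 1) ^ 2) := by rw [one_mul]; exact h1
      _ = (c * C ^ d) * ((d : ℝ) + 1) ^ 2 := by ring
      _ ≤ (c * C ^ d) * (2 * (d : ℝ) + 1) ^ 5 := mul_le_mul_of_nonneg_left h2 (by positivity)
      _ = _ := by ring
  · intro E _ _ _ d
    have hup : AdmissibleAt E p q d (Real.sqrt (2 * q / p - 1) ^ d) :=
      ⟨pow_pos hr d, fun n _ f hf => Pool.Agent.Y749.VV.upper_degR hp hpq d f hf⟩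
    have hne : {K : ℝ | AdmissibleAt E p q d K}.Nonempty := ⟨_, hup⟩
    have hbdd : BddBelow {K : ℝ | AdmissibleAt E p q d K} := ⟨_, fun K hK => hlowE E d K hK⟩
    have hl : Real.sqrt (2 * q / p - 1) ^ d / (c * ((d : ℝ) + 1) ^ 2) ≤
        sInf {K : ℝ | AdmissibleAt E p q d K} := le_csInf hne fun K hK => hlowE E d K hK
    have hpos : 0 < Real.sqrt (2 * q / p - 1) ^ d / (c * ((d : ℝ) + 1) ^ 2) := by positivity
    refine ⟨sInf {K : ℝ | AdmissibleAt E p q d K}, ⟨⟨hpos.trans_le hl, ?_⟩, ?_⟩, hl, csInf_le hbdd hup⟩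
    · intro n hn f hf
      have h00 : 0 ≤ lpE p f := Real.rpow_nonneg (Pool.Agent.Helper228.HC.mean_nonneg fun _ =>
          Real.rpow_nonneg (norm_nonneg _) _) _
      rcases h00.eq_or_lt with h0 | h0
      · have h1 := Pool.Agent.Y749.VV.upper_degR hp hpq d f hf
        rw [← h0, mul_zero] at h1 ⊢
        exact h1
      · rw [← div_le_iff₀ h0]
        exact le_csInf hne fun K hK => (div_le_iff₀ h0).2 (hK.2 n hn f hf)
    · intro K hK
      exact csInf_le hbdd hK

end Pool.Agent.Results.MP_961199_an.DegreeByDegree
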