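import Mathlib
import Pool.Agent.Results.MP_961199_an.Main
import Pool.Agent.Y869.HV.Upper

/-!
# The optimal constant for functions with values in an arbitrary normed space

For `f : {-1,1}^n → E` with values in a normed space `E` and `1 ≤ p < q` the inequality
`‖f‖_q ≤ C ^ deg f · ‖f‖_p` holds with `C = √(2q/p - 1)`, and this constant is optimal for every
`E ≠ 0`. So the optimal constant is the same for every nonzero Banach space; no geometric property
of `E` (cotype, K-convexity, ...) is needed. `E = ℝ` is the question of the problem.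
-/

set_option autoImplicit false

noncomputable section

namespace Pool.Agent.Results.MP_961199_an.NormedSpaceValued

/-- The hypercube `{-1,1}^n`; the type `ℤˣ` of units of `ℤ` is `{1,-1}`. -/
abbrev Cube (n : ℕ) : Type := Fin n → ℤˣ

/-- The monomial (Walsh function) `∏_{i ∈ S} x_i`. -/
def walsh {n : ℕ} (S : Finset (Fin n)) (x : Cube n) : ℝ := ∏ i ∈ S, (((x i : ℤˣ) : ℤ) : ℝ)

section

variable {E : Type} [NormedAddCommGroup E] [NormedSpace ℝ E]

/-- The norm `‖f‖_r = (2^{-n} ∑_x ‖f(x)‖^r)^{1/r}` of an `E`-valued function. -/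
def lpNorm {n : ℕ} (r : ℝ) (f : Cube n → E) : ℝ := ((∑ x, ‖f x‖ ^ r) / 2 ^ n) ^ (1 / r)

/-- The Fourier–Walsh coefficient `f̂(S) = 2^{-n} ∑_x (∏_{i ∈ S} x_i) f(x) ∈ E`. -/
def coeff {n : ℕ} (f : Cube n → E) (S : Finset (Fin n)) : E :=
  ((2 : ℝ) ^ n)⁻¹ • ∑ x, walsh S x • f x

open Classical in
/-- The degree: the largest `|S|` with `f̂(S) ≠ 0` (and `0` if there is none). -/
def degree {n : ℕ} (f : Cube n → E) : ℕ :=
  (Finset.univ.filter fun S : Finset (Fin n) => coeff f S ≠ 0).sup Finset.card

end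

/-- `C` is admissible for `E` and the exponents `p, q` if `C > 0` and `‖f‖_q ≤ C^{deg f} ‖f‖_p` for
every `n ≥ 1` and every function `f : {-1,1}^n → E`. -/
def Admissible (E : Type) [NormedAddCommGroup E] [NormedSpace ℝ E] (p q C : ℝ) : Prop :=
  0 < C ∧ ∀ n : ℕ, 1 ≤ n → ∀ f : Cube n → E, lpNorm q f ≤ C ^ degree f * lpNorm p f

/-- The optimal constant: the infimum of all admissible `C > 0`. -/
def Cstar (E : Type) [NormedAddCommGroup E] [NormedSpace ℝ E] (p q : ℝ) : ℝ :=
  sInf {C : ℝ | Admissible E p q C}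

variable {E : Type} [NormedAddCommGroup E] [NormedSpace ℝ E]

theorem card_le_degree {n : ℕ} {f : Cube n → E} {S : Finset (Fin n)} (h : coeff f S ≠ 0) :
    S.card ≤ degree f := by
  classical
  unfold degree
  exact Finset.le_sup (f := Finset.card) (Finset.mem_filter.2 ⟨Finset.mem_univ _, h⟩)

theorem upper {p q : ℝ} (hp : 1 ≤ p) (hpq : p < q) {n : ℕ} (f : Cube n → E) :
    lpNorm q f ≤ Real.sqrt (2 * q / p - 1) ^ degree f * lpNorm p f :=
  Y869.HV.upper_boundE hp hpq f fun _ hS => card_le_degree hS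

theorem admissible {p q : ℝ} (hp : 1 ≤ p) (hpq : p < q) :
    Admissible E p q (Real.sqrt (2 * q / p - 1)) := by
  refine ⟨?_, fun n _ f => upper hp hpq f⟩
  apply Real.sqrt_pos.2
  have h0 : 0 < p := by linarith
  have : 1 < q / p := by rw [lt_div_iff₀ h0]; linarith
  have h2 : 2 * q / p = 2 * (q / p) := by ring
  rw [h2]
  linarith

/-- A constant which is admissible for `E ≠ 0` is admissible for `ℝ`. -/
theorem scalar [Nontrivial E] {p q C : ℝ} (h : Admissible E p q C) : Main.Admissible p q C := by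
  obtain ⟨e, he⟩ := exists_norm_eq E (zero_le_one' ℝ)
  have he0 : e ≠ 0 := by
    intro h0
    rw [h0, norm_zero] at he
    exact zero_ne_one he
  refine ⟨h.1, fun n hn f => ?_⟩
  have h1 := h.2 n hn (fun x => f x • e)
  have h2 : ∀ r : ℝ, lpNorm r (fun x : Cube n => f x • e) = H457HC.lpNorm r f := by
    intro r
    unfold lpNorm H457HC.lpNorm H457HC.mean
    simp only [norm_smul, he, mul_one, Real.norm_eq_abs]
  have h3 : ∀ S : Finset (Fin n), coeff (fun x : Cube n => f x • e) S = H457HC.fourier f S • e := by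
    intro S
    unfold coeff H457HC.fourier H457HC.mean
    simp only [smul_smul, ← Finset.sum_smul]
    congr 1
    rw [div_eq_inv_mul]
    congr 1
    refine Finset.sum_congr rfl fun x _ => ?_
    exact mul_comm _ _
  have h4 : degree (fun x : Cube n => f x • e) = H457HC.degree f := by
    classical
    unfold degree H457HC.degree
    congr 1
    ext S
    rw [Finset.mem_filter, Finset.mem_filter, h3, smul_ne_zero_iff]
    exact ⟨fun h => ⟨h.1, h.2.1⟩, fun h => ⟨h.1, h.2, he0⟩⟩
  rw [h2, h2, h4] at h1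
  exact h1

/-- **The optimal constant is `√(2q/p - 1)` for every nonzero normed space.** For all real
`1 ≤ p < q` (in particular for `1 < p < q ≤ 2`):
(1) for every normed space `E`, every `n` and every `f : {-1,1}^n → E`,
`‖f‖_q ≤ √(2q/p - 1) ^ deg f · ‖f‖_p`;
(2) for every nonzero normed space `E` one has `C*_{p,q}(E) = √(2q/p - 1)`, and this number is the
least admissible constant for `E`;
(3) in particular `C*_{p,q} = C*_{p,q}(ℝ) = √(2q/p - 1)`. -/
theorem result (p q : ℝ) (hp : 1 ≤ p) (hpq : p < q) :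
    (∀ (E : Type) [NormedAddCommGroup E] [NormedSpace ℝ E] (n : ℕ) (f : Cube n → E),
      lpNorm q f ≤ Real.sqrt (2 * q / p - 1) ^ degree f * lpNorm p f) ∧
    (∀ (E : Type) [NormedAddCommGroup E] [NormedSpace ℝ E] [Nontrivial E],
      Cstar E p q = Real.sqrt (2 * q / p - 1) ∧
        IsLeast {C : ℝ | Admissible E p q C} (Real.sqrt (2 * q / p - 1))) ∧
    Cstar ℝ p q = Real.sqrt (2 * q / p - 1) := by
  have key : ∀ (E : Type) [NormedAddCommGroup E] [NormedSpace ℝ E] [Nontrivial E],
      Cstar E p q = Real.sqrt (2 * q / p - 1) ∧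
        IsLeast {C : ℝ | Admissible E p q C} (Real.sqrt (2 * q / p - 1)) := by
    intro E _ _ _
    have hL : IsLeast {C : ℝ | Admissible E p q C} (Real.sqrt (2 * q / p - 1)) :=
      ⟨admissible hp hpq, fun C hC => (Main.result p q hp hpq).2.2 (scalar hC)⟩
    exact ⟨hL.csInf_eq, hL⟩
  exact ⟨fun E _ _ n f => upper hp hpq f, fun E _ _ _ => key E, (key ℝ).1⟩

end Pool.Agent.Results.MP_961199_an.NormedSpaceValued
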